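import Mathlib

set_option autoImplicit false

/-!
The finite check: every partial `3 x 3` array in which every nonempty row, every nonempty column
and every symbol that occurs contains at least two filled cells (rows and columns without
repeated symbols) contains one of six small patterns, after a permutation of rows and columns.
Cells carry a symbol `0, 1, 2`, or `3` for an empty cell.
-/

namespace Pool.Agent.MP_f6f4b2_co_Neg

/-- a triple read as a function of `0, 1, 2` -/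
def rget (r : ℕ × ℕ × ℕ) : ℕ → ℕ
  | 0 => r.1
  | 1 => r.2.1
  | _ => r.2.2

/-- a `3 x 3` array read as a function -/
def gget (g : (ℕ × ℕ × ℕ) × (ℕ × ℕ × ℕ) × (ℕ × ℕ × ℕ)) : ℕ → ℕ → ℕ
  | 0 => rget g.1
  | 1 => rget g.2.1
  | _ => rget g.2.2

/-- two cells are filled with the same symbol -/
def same (m n : ℕ) : Bool := Nat.beq m n && Nat.blt m 3

/-- not exactly one of three cells is filled -/
def cnt (u v w : ℕ) : Bool :=
  (!(Nat.blt u 3) || Nat.blt v 3 || Nat.blt w 3) &&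
  (!(Nat.blt v 3) || Nat.blt u 3 || Nat.blt w 3) &&
  (!(Nat.blt w 3) || Nat.blt u 3 || Nat.blt v 3)

def rowOK (r : ℕ × ℕ × ℕ) : Bool :=
  (!(same r.1 r.2.1) && !(same r.1 r.2.2) && !(same r.2.1 r.2.2)) && cnt r.1 r.2.1 r.2.2

def compat (r s : ℕ × ℕ × ℕ) : Bool :=
  !(same r.1 s.1) && !(same r.2.1 s.2.1) && !(same r.2.2 s.2.2)

def colOK (r s t : ℕ × ℕ × ℕ) : Bool :=
  cnt r.1 s.1 t.1 && cnt r.2.1 s.2.1 t.2.1 && cnt r.2.2 s.2.2 t.2.2

def symOK (g : (ℕ × ℕ × ℕ) × (ℕ × ℕ × ℕ) × (ℕ × ℕ × ℕ)) : Bool :=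
  [0, 1, 2].all fun i => [0, 1, 2].all fun j => Nat.ble 3 (gget g i j) ||
    [0, 1, 2].any fun i' => [0, 1, 2].any fun j' =>
      !(Nat.beq i' i && Nat.beq j' j) && Nat.beq (gget g i' j') (gget g i j)

/-- the six orders of `0, 1, 2` -/
def perms : List (ℕ × ℕ × ℕ) :=
  [(0, 1, 2), (0, 2, 1), (1, 0, 2), (1, 2, 0), (2, 0, 1), (2, 1, 0)]

/-- the six patterns -/
def pats (G : ℕ → ℕ → ℕ) (p q : ℕ × ℕ × ℕ) : Bool :=
  -- Pasch
  (same (G p.1 q.1) (G p.2.1 q.2.1) && same (G p.1 q.2.1) (G p.2.1 q.1)) ||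
  -- hexagon in two rows
  (same (G p.1 q.1) (G p.2.1 q.2.1) && same (G p.1 q.2.1) (G p.2.1 q.2.2) &&
    same (G p.1 q.2.2) (G p.2.1 q.1)) ||
  -- hexagon in two symbols
  (same (G p.1 q.1) (G p.2.1 q.2.1) && same (G p.2.1 q.2.1) (G p.2.2 q.2.2) &&
    same (G p.1 q.2.1) (G p.2.1 q.2.2) && same (G p.2.1 q.2.2) (G p.2.2 q.1)) ||
  -- hexagon in two columns
  (same (G p.1 q.1) (G p.2.1 q.2.1) && same (G p.2.1 q.1) (G p.2.2 q.2.1) &&
    same (G p.2.2 q.1) (G p.1 q.2.1)) ||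
  -- grid
  (same (G p.1 q.1) (G p.2.1 q.2.2) && same (G p.2.1 q.2.1) (G p.2.2 q.1) &&
    same (G p.1 q.2.1) (G p.2.2 q.2.2)) ||
  -- prism
  (same (G p.1 q.1) (G p.2.1 q.2.2) && same (G p.1 q.2.1) (G p.2.2 q.2.2) &&
    same (G p.2.1 q.1) (G p.2.2 q.2.1))

def bad (G : ℕ → ℕ → ℕ) : Bool := perms.any fun p => perms.any fun q => pats G p q

/-- the rows without repeated symbols and without a single filled cell -/
def rows : List (ℕ × ℕ × ℕ) :=
  [(3, 3, 3),
   (3, 0, 1), (3, 0, 2), (3, 1, 0), (3, 1, 2), (3, 2, 0), (3, 2, 1),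
   (0, 3, 1), (0, 3, 2), (1, 3, 0), (1, 3, 2), (2, 3, 0), (2, 3, 1),
   (0, 1, 3), (0, 2, 3), (1, 0, 3), (1, 2, 3), (2, 0, 3), (2, 1, 3),
   (0, 1, 2), (0, 2, 1), (1, 0, 2), (1, 2, 0), (2, 0, 1), (2, 1, 0)]

lemma mem_rows : ∀ u : Fin 4, ∀ v : Fin 4, ∀ w : Fin 4,
    rowOK ((u : ℕ), (v : ℕ), (w : ℕ)) = true → ((u : ℕ), (v : ℕ), (w : ℕ)) ∈ rows := by
  decide +kernel

def check : Bool :=
  rows.all fun r => rows.all fun s => !(compat r s) || rows.all fun t =>
    !(compat r t && compat s t && colOK r s t && symOK (r, s, t) &&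
      !(Nat.ble 3 r.1 && Nat.ble 3 r.2.1 && Nat.ble 3 r.2.2 &&
        Nat.ble 3 s.1 && Nat.ble 3 s.2.1 && Nat.ble 3 s.2.2 &&
        Nat.ble 3 t.1 && Nat.ble 3 t.2.1 && Nat.ble 3 t.2.2)) || bad (gget (r, s, t))

theorem check_true : check = true := by decide +kernel

lemma same_iff {m n : ℕ} : same m n = true ↔ m = n ∧ m < 3 := by
  simp [same, Nat.blt_eq]

lemma cnt_true {u v w : ℕ} (hu : u < 3 → v < 3 ∨ w < 3) (hv : v < 3 → u < 3 ∨ w < 3)
    (hw : w < 3 → u < 3 ∨ v < 3) : cnt u v w = true := by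
  unfold cnt
  simp only [Bool.and_eq_true, Bool.or_eq_true, Bool.not_eq_true', Nat.blt_eq]
  refine ⟨⟨?_, ?_⟩, ?_⟩
  · by_cases h : u < 3
    · rcases hu h with h1 | h1 <;> simp [h1]
    · left; left
      rw [Bool.eq_false_iff, ne_eq, Nat.blt_eq]
      exact h
  · by_cases h : v < 3
    · rcases hv h with h1 | h1 <;> simp [h1]
    · left; left
      rw [Bool.eq_false_iff, ne_eq, Nat.blt_eq]
      exact h
  · by_cases h : w < 3
    · rcases hw h with h1 | h1 <;> simp [h1]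
    · left; left
      rw [Bool.eq_false_iff, ne_eq, Nat.blt_eq]
      exact h

/-- The finite check for arrays given as functions. -/
theorem finite_check (G : ℕ → ℕ → ℕ)
    (hle : ∀ i < 3, ∀ j < 3, G i j ≤ 3)
    (hrow : ∀ i < 3, ∀ j < 3, ∀ j' < 3, G i j = G i j' → G i j < 3 → j = j')
    (hcol : ∀ j < 3, ∀ i < 3, ∀ i' < 3, G i j = G i' j → G i j < 3 → i = i')
    (dx : ∀ i < 3, ∀ j < 3, G i j < 3 → ∃ j' < 3, j' ≠ j ∧ G i j' < 3)
    (dy : ∀ i < 3, ∀ j < 3, G i j < 3 → ∃ i' < 3, i' ≠ i ∧ G i' j < 3)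
    (dz : ∀ i < 3, ∀ j < 3, G i j < 3 →
      ∃ i' < 3, ∃ j' < 3, ¬ (i' = i ∧ j' = j) ∧ G i' j' = G i j)
    (hne : ∃ i < 3, ∃ j < 3, G i j < 3) :
    ∃ p ∈ perms, ∃ q ∈ perms, pats G p q = true := by
  -- the three rows
  have hr : ∀ i < 3, (G i 0, G i 1, G i 2) ∈ rows := by
    intro i hi
    have h := mem_rows ⟨G i 0, by have := hle i hi 0 (by norm_num); omega⟩
      ⟨G i 1, by have := hle i hi 1 (by norm_num); omega⟩
      ⟨G i 2, by have := hle i hi 2 (by norm_num); omega⟩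
    apply h
    unfold rowOK
    simp only [Bool.and_eq_true, Bool.not_eq_true', Bool.eq_false_iff, ne_eq, same_iff]
    refine ⟨⟨⟨?_, ?_⟩, ?_⟩, ?_⟩
    · rintro ⟨h1, h2⟩
      have := hrow i hi 0 (by norm_num) 1 (by norm_num) h1 h2
      omega
    · rintro ⟨h1, h2⟩
      have := hrow i hi 0 (by norm_num) 2 (by norm_num) h1 h2
      omega
    · rintro ⟨h1, h2⟩
      have := hrow i hi 1 (by norm_num) 2 (by norm_num) h1 h2
      omega
    · apply cnt_true
      · intro h1
        obtain ⟨j', h2, h3, h4⟩ := dx i hi 0 (by norm_num) h1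
        interval_cases j'
        · exact absurd rfl h3
        · exact Or.inl h4
        · exact Or.inr h4
      · intro h1
        obtain ⟨j', h2, h3, h4⟩ := dx i hi 1 (by norm_num) h1
        interval_cases j'
        · exact Or.inl h4
        · exact absurd rfl h3
        · exact Or.inr h4
      · intro h1
        obtain ⟨j', h2, h3, h4⟩ := dx i hi 2 (by norm_num) h1
        interval_cases j'
        · exact Or.inl h4
        · exact Or.inr h4
        · exact absurd rfl h3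
  have hcompat : ∀ i < 3, ∀ i' < 3, i ≠ i' →
      compat (G i 0, G i 1, G i 2) (G i' 0, G i' 1, G i' 2) = true := by
    intro i hi i' hi' hii
    unfold compat
    simp only [Bool.and_eq_true, Bool.not_eq_true', Bool.eq_false_iff, ne_eq, same_iff]
    refine ⟨⟨?_, ?_⟩, ?_⟩
    · rintro ⟨h1, h2⟩
      exact hii (hcol 0 (by norm_num) i hi i' hi' h1 h2)
    · rintro ⟨h1, h2⟩
      exact hii (hcol 1 (by norm_num) i hi i' hi' h1 h2)
    · rintro ⟨h1, h2⟩
      exact hii (hcol 2 (by norm_num) i hi i' hi' h1 h2)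
  have hcnt : ∀ j < 3, cnt (G 0 j) (G 1 j) (G 2 j) = true := by
    intro j hj
    apply cnt_true
    · intro h1
      obtain ⟨i', h2, h3, h4⟩ := dy 0 (by norm_num) j hj h1
      interval_cases i'
      · exact absurd rfl h3
      · exact Or.inl h4
      · exact Or.inr h4
    · intro h1
      obtain ⟨i', h2, h3, h4⟩ := dy 1 (by norm_num) j hj h1
      interval_cases i'
      · exact Or.inl h4
      · exact absurd rfl h3
      · exact Or.inr h4
    · intro h1
      obtain ⟨i', h2, h3, h4⟩ := dy 2 (by norm_num) j hj h1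
      interval_cases i'
      · exact Or.inl h4
      · exact Or.inr h4
      · exact absurd rfl h3
  set g : (ℕ × ℕ × ℕ) × (ℕ × ℕ × ℕ) × (ℕ × ℕ × ℕ) :=
    ((G 0 0, G 0 1, G 0 2), (G 1 0, G 1 1, G 1 2), (G 2 0, G 2 1, G 2 2)) with hg
  have hget : ∀ i < 3, ∀ j < 3, gget g i j = G i j := by
    intro i hi j hj
    interval_cases i <;> interval_cases j <;> rfl
  have hmem : ∀ i, i ∈ [0, 1, 2] ↔ i < 3 := by
    intro i
    simp only [List.mem_cons, List.not_mem_nil, or_false]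
    omega
  have hsym : symOK g = true := by
    unfold symOK
    rw [List.all_eq_true]
    intro i hi
    rw [List.all_eq_true]
    intro j hj
    rw [hmem] at hi hj
    rw [Bool.or_eq_true]
    by_cases h : G i j < 3
    · right
      obtain ⟨i', hi', j', hj', hne', he⟩ := dz i hi j hj h
      rw [List.any_eq_true]
      refine ⟨i', (hmem i').mpr hi', ?_⟩
      rw [List.any_eq_true]
      refine ⟨j', (hmem j').mpr hj', ?_⟩
      rw [hget i hi j hj, hget i' hi' j' hj', he]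
      simp only [Bool.and_eq_true, Bool.not_eq_true', Bool.eq_false_iff, ne_eq, Nat.beq_eq]
      exact ⟨fun h => hne' h, trivial⟩
    · left
      rw [hget i hi j hj]
      exact Nat.ble_eq.mpr (not_lt.mp h)
  have hbad : bad (gget g) = true := by
    have h := check_true
    unfold check at h
    rw [List.all_eq_true] at h
    have h1 := h _ (hr 0 (by norm_num))
    rw [List.all_eq_true] at h1
    have h2 := h1 _ (hr 1 (by norm_num))
    rw [Bool.or_eq_true] at h2
    rcases h2 with h2 | h2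
    · rw [hcompat 0 (by norm_num) 1 (by norm_num) (by norm_num)] at h2
      exact absurd h2 (by decide)
    · rw [List.all_eq_true] at h2
      have h3 := h2 _ (hr 2 (by norm_num))
      rw [Bool.or_eq_true] at h3
      rcases h3 with h3 | h3
      · exfalso
        rw [hcompat 0 (by norm_num) 2 (by norm_num) (by norm_num),
          hcompat 1 (by norm_num) 2 (by norm_num) (by norm_num)] at h3
        have hc : colOK (G 0 0, G 0 1, G 0 2) (G 1 0, G 1 1, G 1 2) (G 2 0, G 2 1, G 2 2) =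
            true := by
          unfold colOK
          rw [Bool.and_eq_true, Bool.and_eq_true]
          exact ⟨⟨hcnt 0 (by norm_num), hcnt 1 (by norm_num)⟩, hcnt 2 (by norm_num)⟩
        rw [hc, ← hg, hsym] at h3
        simp only [Bool.true_and, Bool.not_not, Bool.and_eq_true, Nat.ble_eq] at h3
        obtain ⟨i, hi, j, hj, hlt⟩ := hne
        interval_cases i <;> interval_cases j <;> omega
      · exact h3
  unfold bad at hbad
  rw [List.any_eq_true] at hbad
  obtain ⟨p, hp, hbad⟩ := hbad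
  rw [List.any_eq_true] at hbad
  obtain ⟨q, hq, hbad⟩ := hbad
  refine ⟨p, hp, q, hq, ?_⟩
  have hp3 : ∀ p ∈ perms, p.1 < 3 ∧ p.2.1 < 3 ∧ p.2.2 < 3 := by decide
  obtain ⟨p1, p2, p3⟩ := hp3 p hp
  obtain ⟨q1, q2, q3⟩ := hp3 q hq
  rw [← hbad]
  unfold pats
  rw [hget _ p1 _ q1, hget _ p1 _ q2, hget _ p1 _ q3, hget _ p2 _ q1, hget _ p2 _ q2,
    hget _ p2 _ q3, hget _ p3 _ q1, hget _ p3 _ q2, hget _ p3 _ q3]

end Pool.Agent.MP_f6f4b2_co_Neg
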