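import Pool.Agent.Lib.MP_f6f4b2_co_Neg.Web
import Pool.Agent.Lib.MP_f6f4b2_co_Neg.Comb

set_option autoImplicit false

/-!
No nonempty set of at most nine-vertex cells of the web `z = x y^2 + y` has all degrees at
least two.
-/

namespace Pool.Agent.MP_f6f4b2_co_Neg

open Finset

lemma card_fibre {α β γ : Type*} [DecidableEq α] [DecidableEq β] [DecidableEq γ]
    (P : Finset α) (f : α → β) (g : α → γ)
    (hg : ∀ p ∈ P, ∃ q ∈ P, q ≠ p ∧ g q = g p)
    (inj : ∀ p ∈ P, ∀ q ∈ P, f p = f q → g p = g q → p = q)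
    (h2 : (P.image f).card ≤ 2) : P.card = 2 * (P.image g).card := by
  rw [Finset.card_eq_sum_card_image g P]
  rw [Finset.sum_const_nat (m := 2)]
  · ring
  intro b hb
  obtain ⟨p, hp, rfl⟩ := mem_image.mp hb
  apply le_antisymm
  · refine le_trans ?_ h2
    apply card_le_card_of_injOn f
    · intro q hq
      rw [mem_coe] at hq
      exact mem_coe.mpr (mem_image_of_mem f (mem_filter.mp hq).1)
    · intro q hq r hr h
      rw [mem_coe] at hq hr
      exact inj q (mem_filter.mp hq).1 r (mem_filter.mp hr).1 h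
        ((mem_filter.mp hq).2.trans (mem_filter.mp hr).2.symm)
  · obtain ⟨q, hq, hne, hgq⟩ := hg p hp
    have hsub : ({p, q} : Finset α) ⊆ P.filter (fun r => g r = g p) := by
      intro r hr
      rw [mem_insert, mem_singleton] at hr
      rcases hr with rfl | rfl
      · exact mem_filter.mpr ⟨hp, rfl⟩
      · exact mem_filter.mpr ⟨hq, hgq⟩
    calc 2 = ({p, q} : Finset α).card := (card_pair hne.symm).symm
      _ ≤ _ := card_le_card hsub

lemma two_le_image {α β : Type*} [DecidableEq β] (P : Finset α) (f : α → β) {p q : α}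
    (hp : p ∈ P) (hq : q ∈ P) (h : f p ≠ f q) : 2 ≤ (P.image f).card := by
  calc 2 = ({f p, f q} : Finset β).card := (card_pair h).symm
    _ ≤ _ := by
        apply card_le_card
        intro r hr
        rw [mem_insert, mem_singleton] at hr
        rcases hr with rfl | rfl
        · exact mem_image_of_mem f hp
        · exact mem_image_of_mem f hq

lemma enum3 {K : Type*} [Fintype K] [DecidableEq K] (hK : 3 ≤ Fintype.card K) (A : Finset K)
    (hA : A.card ≤ 3) :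
    ∃ a : ℕ → K, (∀ i < 3, ∀ j < 3, a i = a j → i = j) ∧ ∀ x ∈ A, ∃ i < 3, x = a i := by
  obtain ⟨t, ht, htc⟩ := Finset.exists_superset_card_eq hA hK
  obtain ⟨x, y, z, hxy, hxz, hyz, rfl⟩ := Finset.card_eq_three.mp htc
  refine ⟨fun n => if n = 0 then x else if n = 1 then y else z, ?_, ?_⟩
  · intro i hi j hj h
    interval_cases i <;> interval_cases j <;> simp_all
  · intro w hw
    have := ht hw
    rw [mem_insert, mem_insert, mem_singleton] at this
    rcases this with rfl | rfl | rfl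
    · exact ⟨0, by norm_num, by simp⟩
    · exact ⟨1, by norm_num, by simp⟩
    · exact ⟨2, by norm_num, by simp⟩

variable {K : Type*} [Field K] [CharP K 2]

/-- the cells used: `y ≠ 0`, `x y ∈ S`, `y ∉ S`, `mu / y ∉ S` -/
def Cell (mu : K) (p : K × K) : Prop :=
  p.2 ≠ 0 ∧ InS (p.1 * p.2) ∧ ¬ InS p.2 ∧ ¬ InS (mu * p.2⁻¹)

theorem no_core [Fintype K] [DecidableEq K] (h3 : ∀ u : K, u ^ 2 + u + 1 ≠ 0)
    (hidx : ∀ a b : K, ¬ InS a → ¬ InS b → InS (a + b)) (hcard : 3 ≤ Fintype.card K) (mu : K)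
    (P : Finset (K × K)) (hP : ∀ p ∈ P, Cell mu p) (hne : P.Nonempty)
    (dx : ∀ p ∈ P, ∃ q ∈ P, q ≠ p ∧ q.1 = p.1)
    (dy : ∀ p ∈ P, ∃ q ∈ P, q ≠ p ∧ q.2 = p.2)
    (dz : ∀ p ∈ P, ∃ q ∈ P, q ≠ p ∧ web q.1 q.2 = web p.1 p.2)
    (hsize : (P.image Prod.fst).card + (P.image Prod.snd).card +
      (P.image fun p => web p.1 p.2).card ≤ 9) : False := by
  -- the three injectivity statements
  have i12 : ∀ p ∈ P, ∀ q ∈ P, p.1 = q.1 → p.2 = q.2 → p = q :=
    fun p _ q _ h1 h2 => Prod.ext h1 h2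
  have i13 : ∀ p ∈ P, ∀ q ∈ P, p.1 = q.1 → web p.1 p.2 = web q.1 q.2 → p = q := by
    intro p hp q hq h1 h2
    have hp' := hP p hp
    have hq' := hP q hq
    obtain ⟨px, py⟩ := p
    obtain ⟨qx, qy⟩ := q
    simp only at h1 h2
    subst h1
    have h4 : py = qy := web_inj_y h3 hp'.2.1 hq'.2.1 h2
    rw [h4]
  have i23 : ∀ p ∈ P, ∀ q ∈ P, p.2 = q.2 → web p.1 p.2 = web q.1 q.2 → p = q := by
    intro p hp q hq h1 h2
    have hp' := hP p hp
    obtain ⟨px, py⟩ := p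
    obtain ⟨qx, qy⟩ := q
    simp only at h1 h2
    subst h1
    have h4 : px = qx := web_inj_x hp'.1 h2
    rw [h4]
  -- sizes
  set A := P.image Prod.fst with hA
  set B := P.image Prod.snd with hB
  set C := P.image (fun p : K × K => web p.1 p.2) with hC
  have a2 : 2 ≤ A.card := by
    obtain ⟨p, hp⟩ := hne
    obtain ⟨q, hq, hqp, h⟩ := dy p hp
    exact two_le_image P Prod.fst hq hp (fun h1 => hqp (i12 q hq p hp h1 h))
  have b2 : 2 ≤ B.card := by
    obtain ⟨p, hp⟩ := hne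
    obtain ⟨q, hq, hqp, h⟩ := dx p hp
    exact two_le_image P Prod.snd hq hp (fun h1 => hqp (i12 q hq p hp h h1))
  have c2 : 2 ≤ C.card := by
    obtain ⟨p, hp⟩ := hne
    obtain ⟨q, hq, hqp, h⟩ := dx p hp
    exact two_le_image P (fun p : K × K => web p.1 p.2) hq hp
      (fun h1 => hqp (i13 q hq p hp h h1))
  have ka : A.card ≤ 2 → P.card = 2 * B.card ∧ P.card = 2 * C.card := fun h =>
    ⟨card_fibre P Prod.fst Prod.snd dy (fun p hp q hq h1 h2 => i12 p hp q hq h1 h2) h,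
      card_fibre P Prod.fst (fun p : K × K => web p.1 p.2) dz
        (fun p hp q hq h1 h2 => i13 p hp q hq h1 h2) h⟩
  have kb : B.card ≤ 2 → P.card = 2 * A.card ∧ P.card = 2 * C.card := fun h =>
    ⟨card_fibre P Prod.snd Prod.fst dx (fun p hp q hq h1 h2 => i12 p hp q hq h2 h1) h,
      card_fibre P Prod.snd (fun p : K × K => web p.1 p.2) dz
        (fun p hp q hq h1 h2 => i23 p hp q hq h1 h2) h⟩
  have kc : C.card ≤ 2 → P.card = 2 * A.card ∧ P.card = 2 * B.card := fun h =>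
    ⟨card_fibre P (fun p : K × K => web p.1 p.2) Prod.fst dx
        (fun p hp q hq h1 h2 => i13 p hp q hq h2 h1) h,
      card_fibre P (fun p : K × K => web p.1 p.2) Prod.snd dy
        (fun p hp q hq h1 h2 => i23 p hp q hq h2 h1) h⟩
  have a3 : A.card ≤ 3 := by omega
  have b3 : B.card ≤ 3 := by omega
  have c3 : C.card ≤ 3 := by omega
  obtain ⟨a, ainj, ha⟩ := enum3 hcard A a3
  obtain ⟨b, binj, hb⟩ := enum3 hcard B b3
  obtain ⟨c, cinj, hc⟩ := enum3 hcard C c3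
  have hGex : ∀ i j : ℕ, ∃ g : ℕ, ((a i, b j) ∈ P ∧ g < 3 ∧ web (a i) (b j) = c g) ∨
      ((a i, b j) ∉ P ∧ g = 3) := by
    intro i j
    by_cases h : (a i, b j) ∈ P
    · have : web (a i) (b j) ∈ C := mem_image.mpr ⟨(a i, b j), h, rfl⟩
      obtain ⟨g, hg, hg'⟩ := hc _ this
      exact ⟨g, Or.inl ⟨h, hg, hg'⟩⟩
    · exact ⟨3, Or.inr ⟨h, rfl⟩⟩
  choose G hG using hGex
  have hlt : ∀ i j, G i j < 3 ↔ (a i, b j) ∈ P := by
    intro i j
    rcases hG i j with h | h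
    · exact ⟨fun _ => h.1, fun _ => h.2.1⟩
    · exact ⟨fun h' => absurd h' (by omega), fun h' => absurd h' h.1⟩
  have hweb : ∀ i j, G i j < 3 → web (a i) (b j) = c (G i j) := by
    intro i j h'
    rcases hG i j with h | h
    · exact h.2.2
    · omega
  have sm : ∀ i j i' j', (G i j = G i' j' ∧ G i j < 3) →
      (a i, b j) ∈ P ∧ (a i', b j') ∈ P ∧ web (a i) (b j) = web (a i') (b j') := by
    rintro i j i' j' ⟨h1, h2⟩
    have h4 : G i' j' < 3 := h1 ▸ h2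
    exact ⟨(hlt i j).mp h2, (hlt i' j').mp h4, by rw [hweb i j h2, hweb i' j' h4, h1]⟩
  -- every cell of P comes from an index pair
  have hidxs : ∀ p ∈ P, ∃ i < 3, ∃ j < 3, p = (a i, b j) := by
    intro p hp
    obtain ⟨i, hi, h1⟩ := ha p.1 (mem_image_of_mem _ hp)
    obtain ⟨j, hj, h2⟩ := hb p.2 (mem_image_of_mem _ hp)
    exact ⟨i, hi, j, hj, Prod.ext h1 h2⟩
  obtain ⟨p, hp, q, hq, hpat⟩ := finite_check G
    (by
      intro i _ j _
      rcases hG i j with h | h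
      · exact h.2.1.le
      · exact h.2.le)
    (by
      intro i _ j hj j' hj' h1 h2
      obtain ⟨m1, m2, m3⟩ := sm i j i j' ⟨h1, h2⟩
      have := i13 _ m1 _ m2 rfl m3
      exact binj j hj j' hj' (congrArg Prod.snd this))
    (by
      intro j _ i hi i' hi' h1 h2
      obtain ⟨m1, m2, m3⟩ := sm i j i' j ⟨h1, h2⟩
      have := i23 _ m1 _ m2 rfl m3
      exact ainj i hi i' hi' (congrArg Prod.fst this))
    (by
      intro i hi j hj h
      obtain ⟨r, hr, hne', h1⟩ := dx _ ((hlt i j).mp h)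
      obtain ⟨i', hi', j', hj', rfl⟩ := hidxs r hr
      simp only at h1
      have : i' = i := ainj _ hi' _ hi h1
      subst this
      refine ⟨j', hj', ?_, (hlt _ _).mpr hr⟩
      rintro rfl
      exact hne' rfl)
    (by
      intro i hi j hj h
      obtain ⟨r, hr, hne', h1⟩ := dy _ ((hlt i j).mp h)
      obtain ⟨i', hi', j', hj', rfl⟩ := hidxs r hr
      simp only at h1
      have : j' = j := binj _ hj' _ hj h1
      subst this
      refine ⟨i', hi', ?_, (hlt _ _).mpr hr⟩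
      rintro rfl
      exact hne' rfl)
    (by
      intro i hi j hj h
      obtain ⟨r, hr, hne', h1⟩ := dz _ ((hlt i j).mp h)
      obtain ⟨i', hi', j', hj', rfl⟩ := hidxs r hr
      simp only at h1
      refine ⟨i', hi', j', hj', ?_, ?_⟩
      · rintro ⟨rfl, rfl⟩
        exact hne' rfl
      · have h2 : G i' j' < 3 := (hlt _ _).mpr hr
        rw [hweb _ _ h, hweb _ _ h2] at h1
        exact cinj _ h2 _ h h1)
    (by
      obtain ⟨r, hr⟩ := hne
      obtain ⟨i, hi, j, hj, rfl⟩ := hidxs r hr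
      exact ⟨i, hi, j, hj, (hlt _ _).mpr hr⟩)
  have hper : ∀ p ∈ perms, p.1 < 3 ∧ p.2.1 < 3 ∧ p.2.2 < 3 ∧ p.1 ≠ p.2.1 ∧ p.2.1 ≠ p.2.2 ∧
      p.1 ≠ p.2.2 := by decide
  obtain ⟨p1, p2, p3, p12, p23, p13⟩ := hper p hp
  obtain ⟨q1, q2, q3, q12, q23, q13⟩ := hper q hq
  have x12 : a p.1 ≠ a p.2.1 := fun h => p12 (ainj _ p1 _ p2 h)
  have x23 : a p.2.1 ≠ a p.2.2 := fun h => p23 (ainj _ p2 _ p3 h)
  have y12 : b q.1 ≠ b q.2.1 := fun h => q12 (binj _ q1 _ q2 h)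
  have y23 : b q.2.1 ≠ b q.2.2 := fun h => q23 (binj _ q2 _ q3 h)
  have y13 : b q.1 ≠ b q.2.2 := fun h => q13 (binj _ q1 _ q3 h)
  unfold pats at hpat
  simp only [Bool.or_eq_true, Bool.and_eq_true, same_iff] at hpat
  rcases hpat with ((((h | h) | h) | h) | h) | h
  · obtain ⟨-, -, e1⟩ := sm _ _ _ _ h.1
    obtain ⟨-, -, e2⟩ := sm _ _ _ _ h.2
    exact no_pasch x12 y12 e1 e2
  · obtain ⟨m1, m2, e1⟩ := sm _ _ _ _ h.1.1
    obtain ⟨-, m3, e2⟩ := sm _ _ _ _ h.1.2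
    obtain ⟨-, -, e3⟩ := sm _ _ _ _ h.2
    exact no_hexX hidx x12 (hP _ m1).2.2.1 (hP _ m2).2.2.1 (hP _ m3).2.2.1 e1 e2 e3
  · obtain ⟨m1, m2, e1⟩ := sm _ _ _ _ h.1.1.1
    obtain ⟨-, m3, e2⟩ := sm _ _ _ _ h.1.1.2
    obtain ⟨m4, -, e3⟩ := sm _ _ _ _ h.1.2
    obtain ⟨-, -, e4⟩ := sm _ _ _ _ h.2
    refine no_hexZ hidx (hP _ m1).1 (hP _ m2).1 (hP _ m3).1 (hP _ m1).2.2.2 (hP _ m2).2.2.2
      (hP _ m3).2.2.2 ?_ e1 e2 e3 e4
    intro h5
    have := i13 _ m1 _ m4 rfl h5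
    exact y12 (congrArg Prod.snd this)
  · obtain ⟨-, m2, e1⟩ := sm _ _ _ _ h.1.1
    obtain ⟨-, -, e2⟩ := sm _ _ _ _ h.1.2
    obtain ⟨-, -, e3⟩ := sm _ _ _ _ h.2
    exact no_hexY h3 (hP _ m2).1 x23 e1 e2 e3
  · obtain ⟨-, -, e1⟩ := sm _ _ _ _ h.1.1
    obtain ⟨-, -, e2⟩ := sm _ _ _ _ h.1.2
    obtain ⟨-, -, e3⟩ := sm _ _ _ _ h.2
    exact no_grid y12 y23 y13 e1 e2 e3
  · obtain ⟨m1, -, e1⟩ := sm _ _ _ _ h.1.1
    obtain ⟨m2, -, e2⟩ := sm _ _ _ _ h.1.2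
    obtain ⟨-, -, e3⟩ := sm _ _ _ _ h.2
    exact no_prism (not_InS_one h3) y12 (hP _ m1).2.1 (hP _ m2).2.1 e1 e2 e3

end Pool.Agent.MP_f6f4b2_co_Neg
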