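import Pool.Agent.Lib.MP_f6f4b2_co_Neg.Core

set_option autoImplicit false

/-!
Counting facts for the set `S = {u^2 + u}` in a finite field of `2^k` elements, `k` odd, and the
number of cells.
-/

namespace Pool.Agent.MP_f6f4b2_co_Neg

open Finset Classical

variable {K : Type*} [Field K] [CharP K 2] [Fintype K]

/-- no primitive cube root of unity in a field of `2^(2m+1)` elements -/
theorem no_cube_root {m : ℕ} (hK : Fintype.card K = 2 ^ (2 * m + 1)) (u : K) :
    u ^ 2 + u + 1 ≠ 0 := by
  intro h
  have t : (2 : K) = 0 := two0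
  have h2 : u ^ 2 = u + 1 := by linear_combination h - (u + 1) * t
  have h4 : u ^ 4 = u := by
    linear_combination (u ^ 2 + u + 1) * h2 + h2 + (u + 1) * t
  have hj : ∀ j : ℕ, u ^ 4 ^ j = u := by
    intro j
    induction j with
    | zero => simp
    | succ j ih => rw [pow_succ, pow_mul, ih, h4]
  have h5 : u ^ 2 ^ (2 * m + 1) = u ^ 2 := by
    rw [pow_succ, pow_mul, pow_mul]
    have : (2 : ℕ) ^ 2 = 4 := by norm_num
    rw [this, hj m]
  have h6 : u ^ Fintype.card K = u := FiniteField.pow_card u
  rw [hK, h5] at h6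
  have : (1 : K) = 0 := by linear_combination h6 - h2
  exact one_ne_zero this

/-- the finite set of values `u^2 + u` -/
noncomputable def SS (K : Type*) [Field K] [Fintype K] : Finset K :=
  univ.filter fun v => InS v

omit [CharP K 2] in
lemma mem_SS {v : K} : v ∈ SS K ↔ InS v := by simp [SS]

theorem card_SS : 2 * (SS K).card = Fintype.card K := by
  have t : (2 : K) = 0 := two0
  have himg : (univ : Finset K).image (fun u : K => u ^ 2 + u) = SS K := by
    ext v
    rw [mem_SS, mem_image]
    constructor
    · rintro ⟨u, -, rfl⟩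
      exact ⟨u, rfl⟩
    · rintro ⟨u, rfl⟩
      exact ⟨u, mem_univ _, rfl⟩
  rw [← Finset.card_univ, Finset.card_eq_sum_card_image (fun u : K => u ^ 2 + u) univ, himg,
    Finset.sum_const_nat (m := 2)]
  · ring
  intro v hv
  rw [mem_SS] at hv
  obtain ⟨u, rfl⟩ := hv
  have hfil : (univ : Finset K).filter (fun w => w ^ 2 + w = u ^ 2 + u) = {u, u + 1} := by
    ext w
    rw [mem_filter, mem_insert, mem_singleton]
    constructor
    · rintro ⟨-, h⟩
      have h1 : (w + u) * (w + (u + 1)) = 0 := by
        linear_combination h + (w * u + u ^ 2 + u) * t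
      rcases mul_eq_zero.mp h1 with h0 | h0
      · exact Or.inl (eq_of_add h0)
      · exact Or.inr (eq_of_add h0)
    · rintro (rfl | rfl)
      · exact ⟨mem_univ _, rfl⟩
      · refine ⟨mem_univ _, ?_⟩
        linear_combination (u + 1) * t
  rw [hfil, card_pair]
  intro h
  have : (1 : K) = 0 := by linear_combination (-1 : K) * h
  exact one_ne_zero this

theorem card_compl_SS : 2 * (SS K)ᶜ.card = Fintype.card K := by
  have h1 := card_SS (K := K)
  have h2 := Finset.card_add_card_compl (SS K)
  omega

/-- `S` has index two -/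
theorem index_two (a b : K) (ha : ¬ InS a) (hb : ¬ InS b) : InS (a + b) := by
  have t : (2 : K) = 0 := two0
  have hinj : Function.Injective fun s : K => a + s := fun x y h => add_left_cancel h
  have hsub : (SS K).image (fun s => a + s) ⊆ (SS K)ᶜ := by
    intro v hv
    obtain ⟨s, hs, rfl⟩ := mem_image.mp hv
    rw [mem_compl, mem_SS]
    rw [mem_SS] at hs
    intro h
    apply ha
    have h1 := h.add hs
    have h2 : a + s + s = a := by linear_combination s * t
    rwa [h2] at h1
  have hcard : ((SS K).image (fun s => a + s)).card = (SS K)ᶜ.card := by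
    rw [card_image_of_injective _ hinj]
    have h1 := card_SS (K := K)
    have h2 := card_compl_SS (K := K)
    omega
  have heq := Finset.eq_of_subset_of_card_le hsub hcard.ge
  have hb' : b ∈ (SS K)ᶜ := by rw [mem_compl, mem_SS]; exact hb
  rw [← heq] at hb'
  obtain ⟨s, hs, rfl⟩ := mem_image.mp hb'
  rw [mem_SS] at hs
  have h2 : a + (a + s) = s := by linear_combination a * t
  rwa [h2]

/-- the good `y` -/
noncomputable def YY (mu : K) : Finset K :=
  univ.filter fun y => ¬ InS y ∧ ¬ InS (mu * y⁻¹)

omit [CharP K 2] [Fintype K] in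
lemma InS_zero : InS (0 : K) := ⟨0, by ring⟩

omit [CharP K 2] [Fintype K] in
lemma ne_zero_of_not_InS {y : K} (h : ¬ InS y) : y ≠ 0 := by
  rintro rfl
  exact h InS_zero

omit [CharP K 2] in
lemma card_mul_filter (q : K → Prop) {y : K} (hy : y ≠ 0) :
    ((univ : Finset K).filter fun x => q (x * y)).card =
      ((univ : Finset K).filter fun x => q x).card := by
  apply Finset.card_bij (fun x _ => x * y)
  · intro x hx
    rw [mem_filter] at hx ⊢
    exact ⟨mem_univ _, hx.2⟩
  · intro x _ x' _ h
    exact mul_right_cancel₀ hy h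
  · intro v hv
    rw [mem_filter] at hv
    refine ⟨v * y⁻¹, ?_, ?_⟩
    · rw [mem_filter]
      refine ⟨mem_univ _, ?_⟩
      rw [inv_mul_cancel_right₀ hy]
      exact hv.2
    · exact inv_mul_cancel_right₀ hy v

/-- a good `mu` exists -/
theorem exists_mu : ∃ mu : K, Fintype.card K ≤ 4 * (YY mu).card := by
  by_contra hcon
  push Not at hcon
  have hsum : ∑ mu : K, (YY mu).card = (SS K)ᶜ.card * (SS K)ᶜ.card := by
    have h1 : ∀ mu : K, (YY mu).card = ∑ y ∈ (SS K)ᶜ, if ¬ InS (mu * y⁻¹) then 1 else 0 := by
      intro mu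
      rw [← Finset.card_filter]
      congr 1
      ext y
      simp only [YY, mem_filter, mem_univ, true_and, mem_compl, mem_SS]
    simp_rw [h1]
    rw [Finset.sum_comm, Finset.sum_const_nat (m := (SS K)ᶜ.card)]
    intro y hy
    rw [mem_compl, mem_SS] at hy
    have hy0 : y⁻¹ ≠ 0 := inv_ne_zero (ne_zero_of_not_InS hy)
    have h4 := card_mul_filter (K := K) (fun v => ¬ InS v) hy0
    have h5 : ((univ : Finset K).filter fun v => ¬ InS v).card = (SS K)ᶜ.card := by
      congr 1
      ext v
      simp only [mem_filter, mem_univ, true_and, mem_compl, mem_SS]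
    rw [← Finset.card_filter, ← h5]
    refine Eq.trans ?_ (h4.trans ?_)
    · congr 1
      ext v
      simp only [mem_filter, mem_univ, true_and]
    · congr 1
      ext v
      simp only [mem_filter, mem_univ, true_and]
  have h2 := card_compl_SS (K := K)
  have hpos : 0 < Fintype.card K := Fintype.card_pos
  have h3 : ∑ mu : K, 4 * (YY mu).card < ∑ _mu : K, Fintype.card K := by
    apply Finset.sum_lt_sum_of_nonempty univ_nonempty
    intro mu _
    exact hcon mu
  rw [← Finset.mul_sum, hsum, Finset.sum_const, Finset.card_univ, smul_eq_mul] at h3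
  nlinarith

/-- the cells -/
noncomputable def EE (mu : K) : Finset (K × K) := univ.filter fun p => Cell mu p

omit [CharP K 2] in
lemma mem_EE {mu : K} {p : K × K} : p ∈ EE mu ↔ Cell mu p := by simp [EE]

theorem card_EE {mu : K} (h : Fintype.card K ≤ 4 * (YY mu).card) :
    Fintype.card K ^ 2 ≤ 8 * (EE mu).card := by
  have h1 : (EE mu).card = (YY mu).card * (SS K).card := by
    have h2 : (EE mu).card = ∑ y ∈ YY mu, ((EE mu).filter fun p => p.2 = y).card := by
      apply Finset.card_eq_sum_card_fiberwise
      intro p hp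
      rw [mem_coe, mem_EE] at hp
      rw [mem_coe, YY, mem_filter]
      exact ⟨mem_univ _, hp.2.2.1, hp.2.2.2⟩
    rw [h2, Finset.sum_const_nat (m := (SS K).card)]
    intro y hy
    rw [YY, mem_filter] at hy
    have hy0 : y ≠ 0 := ne_zero_of_not_InS hy.2.1
    have h3 : (SS K).card = ((univ : Finset K).filter fun x => InS (x * y)).card := by
      rw [card_mul_filter (fun v => InS v) hy0]
      rfl
    rw [h3]
    symm
    apply Finset.card_bij (fun x _ => (x, y))
    · intro x hx
      rw [mem_filter] at hx
      rw [mem_filter, mem_EE]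
      exact ⟨⟨hy0, hx.2, hy.2.1, hy.2.2⟩, rfl⟩
    · intro x _ x' _ hxx
      exact congrArg Prod.fst hxx
    · rintro ⟨x, y'⟩ hp
      rw [mem_filter, mem_EE] at hp
      obtain ⟨hp1, rfl⟩ := hp
      exact ⟨x, by rw [mem_filter]; exact ⟨mem_univ _, hp1.2.1⟩, rfl⟩
  rw [h1]
  have h2 := card_SS (K := K)
  nlinarith

end Pool.Agent.MP_f6f4b2_co_Neg
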