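import Pool.Agent.Lib.MP_f6f4b2_co_Neg.Count

set_option autoImplicit false

/-!
The linear 3-graph on `3 * 2^k` vertices, `k` odd, with at least `n^2 / 72` edges and without a
nonempty set of edges of minimum degree two on at most nine vertices.
-/

namespace Pool.Agent.MP_f6f4b2_co_Neg

open Finset Classical

variable {K : Type*} [Field K] [CharP K 2] [Fintype K]

/-- the vertex number `x` of part `i` -/
noncomputable def vx {n : ℕ} (e : Fin 3 × K ≃ Fin n) (i : Fin 3) (x : K) : Fin n := e (i, x)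

/-- the edge of a cell -/
noncomputable def edge {n : ℕ} (e : Fin 3 × K ≃ Fin n) (p : K × K) : Finset (Fin n) :=
  {vx e 0 p.1, vx e 1 p.2, vx e 2 (web p.1 p.2)}

omit [Field K] [CharP K 2] [Fintype K] in
lemma vx_inj {n : ℕ} (e : Fin 3 × K ≃ Fin n) {i j : Fin 3} {x y : K}
    (h : vx e i x = vx e j y) : i = j ∧ x = y := by
  have := e.injective h
  exact ⟨congrArg Prod.fst this, congrArg Prod.snd this⟩

omit [CharP K 2] [Fintype K] in
lemma mem_edge {n : ℕ} (e : Fin 3 × K ≃ Fin n) (p : K × K) (v : Fin n) :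
    v ∈ edge e p ↔ v = vx e 0 p.1 ∨ v = vx e 1 p.2 ∨ v = vx e 2 (web p.1 p.2) := by
  simp [edge]

omit [CharP K 2] [Fintype K] in
lemma v0_mem {n : ℕ} (e : Fin 3 × K ≃ Fin n) {p : K × K} {x : K} :
    vx e 0 x ∈ edge e p ↔ x = p.1 := by
  rw [mem_edge]
  constructor
  · rintro (h | h | h)
    · exact (vx_inj e h).2
    · exact absurd (vx_inj e h).1 (by decide)
    · exact absurd (vx_inj e h).1 (by decide)
  · rintro rfl
    exact Or.inl rfl

omit [CharP K 2] [Fintype K] in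
lemma v1_mem {n : ℕ} (e : Fin 3 × K ≃ Fin n) {p : K × K} {x : K} :
    vx e 1 x ∈ edge e p ↔ x = p.2 := by
  rw [mem_edge]
  constructor
  · rintro (h | h | h)
    · exact absurd (vx_inj e h).1 (by decide)
    · exact (vx_inj e h).2
    · exact absurd (vx_inj e h).1 (by decide)
  · rintro rfl
    exact Or.inr (Or.inl rfl)

omit [CharP K 2] [Fintype K] in
lemma v2_mem {n : ℕ} (e : Fin 3 × K ≃ Fin n) {p : K × K} {x : K} :
    vx e 2 x ∈ edge e p ↔ x = web p.1 p.2 := by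
  rw [mem_edge]
  constructor
  · rintro (h | h | h)
    · exact absurd (vx_inj e h).1 (by decide)
    · exact absurd (vx_inj e h).1 (by decide)
    · exact (vx_inj e h).2
  · rintro rfl
    exact Or.inr (Or.inr rfl)

omit [CharP K 2] [Fintype K] in
lemma edge_inj {n : ℕ} (e : Fin 3 × K ≃ Fin n) {p q : K × K} (h : edge e p = edge e q) :
    p = q := by
  have h0 : vx e 0 p.1 ∈ edge e q := by rw [← h]; exact (v0_mem e).mpr rfl
  have h1 : vx e 1 p.2 ∈ edge e q := by rw [← h]; exact (v1_mem e).mpr rfl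
  exact Prod.ext ((v0_mem e).mp h0) ((v1_mem e).mp h1)

omit [CharP K 2] [Fintype K] in
lemma card_edge {n : ℕ} (e : Fin 3 × K ≃ Fin n) (p : K × K) : (edge e p).card = 3 := by
  rw [edge, Finset.card_eq_three]
  refine ⟨_, _, _, ?_, ?_, ?_, rfl⟩
  · intro h; exact absurd (vx_inj e h).1 (by decide)
  · intro h; exact absurd (vx_inj e h).1 (by decide)
  · intro h; exact absurd (vx_inj e h).1 (by decide)

/-- the hypergraph -/
noncomputable def HH {n : ℕ} (e : Fin 3 × K ≃ Fin n) (mu : K) : Finset (Finset (Fin n)) :=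
  (EE mu).image (edge e)

theorem HH_linear {n : ℕ} (e : Fin 3 × K ≃ Fin n) (mu : K) (h3 : ∀ u : K, u ^ 2 + u + 1 ≠ 0)
    (f : Finset (Fin n)) (hf : f ∈ HH e mu) (g : Finset (Fin n)) (hg : g ∈ HH e mu)
    (hne : f ≠ g) : (f ∩ g).card ≤ 1 := by
  obtain ⟨p, hp, rfl⟩ := mem_image.mp hf
  obtain ⟨q, hq, rfl⟩ := mem_image.mp hg
  rw [mem_EE] at hp hq
  have hpq : p ≠ q := fun h => hne (by rw [h])
  by_contra hcon
  push Not at hcon
  obtain ⟨u, hu, v, hv, huv⟩ := Finset.one_lt_card.mp hcon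
  rw [mem_inter] at hu hv
  -- two of the three coordinates agree
  have i12 : p.1 = q.1 → p.2 = q.2 → False := fun h1 h2 => hpq (Prod.ext h1 h2)
  have i13 : p.1 = q.1 → web p.1 p.2 = web q.1 q.2 → False := by
    intro h1 h2
    apply i12 h1
    obtain ⟨px, py⟩ := p
    obtain ⟨qx, qy⟩ := q
    simp only at h1 h2
    subst h1
    exact web_inj_y h3 hp.2.1 hq.2.1 h2
  have i23 : p.2 = q.2 → web p.1 p.2 = web q.1 q.2 → False := by
    intro h1 h2
    refine i12 ?_ h1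
    obtain ⟨px, py⟩ := p
    obtain ⟨qx, qy⟩ := q
    simp only at h1 h2
    subst h1
    exact web_inj_x hp.1 h2
  have key : ∀ w, w ∈ edge e p → w ∈ edge e q →
      (w = vx e 0 p.1 ∧ p.1 = q.1) ∨ (w = vx e 1 p.2 ∧ p.2 = q.2) ∨
        (w = vx e 2 (web p.1 p.2) ∧ web p.1 p.2 = web q.1 q.2) := by
    intro w hw1 hw2
    rcases (mem_edge e p w).mp hw1 with rfl | rfl | rfl
    · exact Or.inl ⟨rfl, (v0_mem e).mp hw2⟩
    · exact Or.inr (Or.inl ⟨rfl, (v1_mem e).mp hw2⟩)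
    · exact Or.inr (Or.inr ⟨rfl, (v2_mem e).mp hw2⟩)
  rcases key u hu.1 hu.2 with ⟨h1, h2⟩ | ⟨h1, h2⟩ | ⟨h1, h2⟩ <;>
    rcases key v hv.1 hv.2 with ⟨k1, k2⟩ | ⟨k1, k2⟩ | ⟨k1, k2⟩
  · exact huv (h1.trans k1.symm)
  · exact i12 h2 k2
  · exact i13 h2 k2
  · exact i12 k2 h2
  · exact huv (h1.trans k1.symm)
  · exact i23 h2 k2
  · exact i13 k2 h2
  · exact i23 k2 h2
  · exact huv (h1.trans k1.symm)

theorem HH_no_core {n : ℕ} (e : Fin 3 × K ≃ Fin n) (mu : K)
    (h3 : ∀ u : K, u ^ 2 + u + 1 ≠ 0) (hcard : 3 ≤ Fintype.card K)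
    (F : Finset (Finset (Fin n))) (hF : F ⊆ HH e mu) (hne : F.Nonempty)
    (h9 : (F.biUnion id).card ≤ 9)
    (hdeg : ∀ v ∈ F.biUnion id, 2 ≤ (F.filter (fun e => v ∈ e)).card) : False := by
  set P : Finset (K × K) := (EE mu).filter fun p => edge e p ∈ F with hP
  have hPE : ∀ p ∈ P, Cell mu p := fun p hp => mem_EE.mp (mem_filter.mp hp).1
  have hPF : ∀ p ∈ P, edge e p ∈ F := fun p hp => (mem_filter.mp hp).2
  have hex : ∀ f ∈ F, ∃ p ∈ P, f = edge e p := by
    intro f hf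
    obtain ⟨p, hp, rfl⟩ := mem_image.mp (hF hf)
    exact ⟨p, mem_filter.mpr ⟨hp, hf⟩, rfl⟩
  have hnext : ∀ p ∈ P, ∀ v ∈ edge e p, ∃ q ∈ P, q ≠ p ∧ v ∈ edge e q := by
    intro p hp v hv
    have hv' : v ∈ F.biUnion id := mem_biUnion.mpr ⟨edge e p, hPF p hp, hv⟩
    have h1lt : 1 < (F.filter (fun e => v ∈ e)).card := hdeg v hv'
    obtain ⟨f, hf, hfne⟩ := Finset.exists_mem_ne h1lt (edge e p)
    rw [mem_filter] at hf
    obtain ⟨q, hq, rfl⟩ := hex f hf.1
    exact ⟨q, hq, fun h => hfne (by rw [h]), hf.2⟩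
  apply no_core h3 index_two hcard mu P hPE
  · obtain ⟨f, hf⟩ := hne
    obtain ⟨p, hp, -⟩ := hex f hf
    exact ⟨p, hp⟩
  · intro p hp
    obtain ⟨q, hq, hqp, hv⟩ := hnext p hp (vx e 0 p.1) ((v0_mem e).mpr rfl)
    exact ⟨q, hq, hqp, ((v0_mem e).mp hv).symm⟩
  · intro p hp
    obtain ⟨q, hq, hqp, hv⟩ := hnext p hp (vx e 1 p.2) ((v1_mem e).mpr rfl)
    exact ⟨q, hq, hqp, ((v1_mem e).mp hv).symm⟩
  · intro p hp
    obtain ⟨q, hq, hqp, hv⟩ := hnext p hp (vx e 2 (web p.1 p.2)) ((v2_mem e).mpr rfl)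
    exact ⟨q, hq, hqp, ((v2_mem e).mp hv).symm⟩
  · refine le_trans ?_ h9
    have inj : ∀ i : Fin 3, Function.Injective (vx e i) := fun i x y h => (vx_inj e h).2
    rw [← card_image_of_injective (P.image Prod.fst) (inj 0),
      ← card_image_of_injective (P.image Prod.snd) (inj 1),
      ← card_image_of_injective (P.image fun p => web p.1 p.2) (inj 2)]
    have d01 : Disjoint ((P.image Prod.fst).image (vx e 0)) ((P.image Prod.snd).image (vx e 1)) := by
      rw [Finset.disjoint_left]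
      intro v hv hv'
      obtain ⟨x, -, rfl⟩ := mem_image.mp hv
      obtain ⟨y, -, h⟩ := mem_image.mp hv'
      exact absurd (vx_inj e h).1 (by decide)
    have d2 : Disjoint ((P.image Prod.fst).image (vx e 0) ∪ (P.image Prod.snd).image (vx e 1))
        ((P.image fun p => web p.1 p.2).image (vx e 2)) := by
      rw [Finset.disjoint_left]
      intro v hv hv'
      obtain ⟨y, -, rfl⟩ := mem_image.mp hv'
      rcases mem_union.mp hv with hv | hv
      · obtain ⟨x, -, h⟩ := mem_image.mp hv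
        exact absurd (vx_inj e h).1 (by decide)
      · obtain ⟨x, -, h⟩ := mem_image.mp hv
        exact absurd (vx_inj e h).1 (by decide)
    rw [← card_union_of_disjoint d01, ← card_union_of_disjoint d2]
    apply card_le_card
    intro v hv
    rw [mem_biUnion]
    rcases mem_union.mp hv with hv | hv
    · rcases mem_union.mp hv with hv | hv
      · obtain ⟨x, hx, rfl⟩ := mem_image.mp hv
        obtain ⟨p, hp, rfl⟩ := mem_image.mp hx
        exact ⟨edge e p, hPF p hp, (v0_mem e).mpr rfl⟩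
      · obtain ⟨x, hx, rfl⟩ := mem_image.mp hv
        obtain ⟨p, hp, rfl⟩ := mem_image.mp hx
        exact ⟨edge e p, hPF p hp, (v1_mem e).mpr rfl⟩
    · obtain ⟨x, hx, rfl⟩ := mem_image.mp hv
      obtain ⟨p, hp, rfl⟩ := mem_image.mp hx
      exact ⟨edge e p, hPF p hp, (v2_mem e).mpr rfl⟩

omit [CharP K 2] in
theorem card_HH {n : ℕ} (e : Fin 3 × K ≃ Fin n) (mu : K) : (HH e mu).card = (EE mu).card := by
  rw [HH]
  exact card_image_of_injective _ (fun p q h => edge_inj e h)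

/-- The construction for every field of `2^(2m+1)` elements, `m ≥ 1`. -/
theorem exists_hypergraph (m : ℕ) (hm : 1 ≤ m) :
    ∃ H : Finset (Finset (Fin (3 * 2 ^ (2 * m + 1)))),
      (∀ e ∈ H, e.card = 3) ∧
      (∀ e ∈ H, ∀ f ∈ H, e ≠ f → (e ∩ f).card ≤ 1) ∧
      ((2 ^ (2 * m + 1)) ^ 2 ≤ 8 * H.card) ∧
      ∀ F ⊆ H, F.Nonempty → (F.biUnion id).card ≤ 9 →
        ¬ ∀ v ∈ F.biUnion id, 2 ≤ (F.filter (fun e => v ∈ e)).card := by
  have hfact : Fact (Nat.Prime 2) := ⟨Nat.prime_two⟩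
  let K := GaloisField 2 (2 * m + 1)
  have hfin : Finite K := inferInstance
  let _ : Fintype K := Fintype.ofFinite K
  have hK : Fintype.card K = 2 ^ (2 * m + 1) := by
    rw [← Nat.card_eq_fintype_card]
    exact GaloisField.card 2 (2 * m + 1) (by omega)
  have hcardV : Fintype.card (Fin 3 × K) = 3 * 2 ^ (2 * m + 1) := by
    rw [Fintype.card_prod, Fintype.card_fin, hK]
  let e : Fin 3 × K ≃ Fin (3 * 2 ^ (2 * m + 1)) := Fintype.equivFinOfCardEq hcardV
  have h3 : ∀ u : K, u ^ 2 + u + 1 ≠ 0 := no_cube_root hK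
  obtain ⟨mu, hmu⟩ := exists_mu (K := K)
  have hcard : 3 ≤ Fintype.card K := by
    rw [hK]
    calc 3 ≤ 2 ^ 3 := by norm_num
      _ ≤ 2 ^ (2 * m + 1) := Nat.pow_le_pow_right (by norm_num) (by omega)
  refine ⟨HH e mu, ?_, HH_linear e mu h3, ?_, ?_⟩
  · intro f hf
    obtain ⟨p, -, rfl⟩ := mem_image.mp hf
    exact card_edge e p
  · rw [card_HH, ← hK]
    exact card_EE hmu
  · intro F hF hne h9 hdeg
    exact HH_no_core e mu h3 hcard F hF hne h9 (by
      intro v hv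
      convert hdeg v hv)

/-- Linear 3-graphs of positive density without cores on at most nine vertices. -/
theorem not_small_core :
    ¬ (∀ c : ℝ, 0 < c → ∃ N : ℕ, ∀ n : ℕ, N ≤ n →
      ∀ H : Finset (Finset (Fin n)),
        (∀ e ∈ H, e.card = 3) →
        (∀ e ∈ H, ∀ f ∈ H, e ≠ f → (e ∩ f).card ≤ 1) →
        c * (n : ℝ) ^ 2 ≤ (H.card : ℝ) →
        ∃ F ⊆ H, F.Nonempty ∧ (F.biUnion id).card ≤ 9 ∧
          ∀ v ∈ F.biUnion id, 2 ≤ (F.filter (fun e => v ∈ e)).card) := by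
  intro hall
  obtain ⟨N, hN⟩ := hall (1 / 72) (by norm_num)
  obtain ⟨H, h1, h2, h3, h4⟩ := exists_hypergraph (N + 1) (by omega)
  have hn : N ≤ 3 * 2 ^ (2 * (N + 1) + 1) := by
    have : 2 * (N + 1) + 1 < 2 ^ (2 * (N + 1) + 1) := Nat.lt_two_pow_self
    omega
  obtain ⟨F, hF, hne, h9, hdeg⟩ := hN _ hn H h1
    (by
      intro e he f hf hef
      convert h2 e he f hf hef)
    (by
      have h5 : ((2 : ℝ) ^ (2 * (N + 1) + 1)) ^ 2 ≤ 8 * (H.card : ℝ) := by exact_mod_cast h3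
      push_cast
      rw [mul_pow]
      linarith)
  exact h4 F hF hne (by convert h9) (by
    intro v hv
    convert hdeg v (by convert hv))

end Pool.Agent.MP_f6f4b2_co_Neg
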