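import Mathlib

set_option autoImplicit false

/-!
The web `z = x y^2 + y` over a field of characteristic two without a primitive cube root of
unity.  Cells `(x,y)` are restricted by `x y ∈ S`, where `S = {u^2 + u}`.
-/

namespace Pool.Agent.MP_f6f4b2_co_Neg

variable {K : Type*} [Field K] [CharP K 2]

/-- `v` is of the form `u^2 + u`. -/
def InS (v : K) : Prop := ∃ u : K, v = u ^ 2 + u

/-- the third vertex of the edge through `x` and `y` -/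
def web (x y : K) : K := x * y ^ 2 + y

omit [CharP K 2] in
lemma web_def (x y : K) : web x y = x * y ^ 2 + y := rfl

lemma two0 : (2 : K) = 0 := CharTwo.two_eq_zero

lemma eq_of_add {a b : K} (h : a + b = 0) : a = b := by
  have h2 : (2 : K) = 0 := two0
  linear_combination h - b * h2

lemma add_eq {a b : K} (h : a = b) : a + b = 0 := by
  have h2 : (2 : K) = 0 := two0
  linear_combination h + b * h2

lemma InS.add {a b : K} (ha : InS a) (hb : InS b) : InS (a + b) := by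
  obtain ⟨u, rfl⟩ := ha
  obtain ⟨v, rfl⟩ := hb
  have h2 : (2 : K) = 0 := two0
  exact ⟨u + v, by linear_combination (-(u * v)) * h2⟩

lemma not_InS_one (h3 : ∀ u : K, u ^ 2 + u + 1 ≠ 0) : ¬ InS (1 : K) := by
  rintro ⟨u, hu⟩
  have h2 : (2 : K) = 0 := two0
  exact h3 u (by linear_combination (-1 : K) * hu + h2)

/-- linearity: `x` and `z` determine `y` -/
lemma web_inj_y (h3 : ∀ u : K, u ^ 2 + u + 1 ≠ 0) {x y y' : K}
    (hy : InS (x * y)) (hy' : InS (x * y')) (h : web x y = web x y') : y = y' := by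
  have h2 : (2 : K) = 0 := two0
  unfold web at h
  have h1 : (y + y') * (x * (y + y') + 1) = 0 := by
    linear_combination h + (x * y * y' + x * y' ^ 2 + y') * h2
  rcases mul_eq_zero.mp h1 with h0 | h0
  · exact eq_of_add h0
  · exfalso
    apply not_InS_one h3
    have h4 : x * y + x * y' = 1 := by linear_combination h0 - h2
    rw [← h4]
    exact hy.add hy'

omit [CharP K 2] in
/-- linearity: `y` and `z` determine `x` -/
lemma web_inj_x {x x' y : K} (hy : y ≠ 0) (h : web x y = web x' y) : x = x' := by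
  unfold web at h
  have : y ^ 2 ≠ 0 := pow_ne_zero 2 hy
  exact mul_right_cancel₀ this (by linear_combination h)

lemma no_pasch {x1 x2 y1 y2 : K} (hx : x1 ≠ x2) (hy : y1 ≠ y2)
    (h1 : web x1 y1 = web x2 y2) (h2 : web x1 y2 = web x2 y1) : False := by
  have t : (2 : K) = 0 := two0
  unfold web at h1 h2
  have h : (x1 + x2) * (y1 + y2) ^ 2 = 0 := by
    linear_combination h1 + h2 + (x1 * y1 * y2 + x2 * y1 * y2 + x2 * y1 ^ 2 + x2 * y2 ^ 2) * t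
  rcases mul_eq_zero.mp h with h0 | h0
  · exact hx (eq_of_add h0)
  · exact hy (eq_of_add (pow_eq_zero_iff (two_ne_zero) |>.mp h0))

lemma no_hexX (hidx : ∀ a b : K, ¬ InS a → ¬ InS b → InS (a + b)) {x1 x2 y1 y2 y3 : K}
    (hx : x1 ≠ x2) (s1 : ¬ InS y1) (s2 : ¬ InS y2) (s3 : ¬ InS y3)
    (h1 : web x1 y1 = web x2 y2) (h2 : web x1 y2 = web x2 y3) (h3 : web x1 y3 = web x2 y1) :
    False := by
  have t : (2 : K) = 0 := two0
  unfold web at h1 h2 h3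
  have h : (x1 + x2) * (y1 + y2 + y3) ^ 2 = 0 := by
    linear_combination h1 + h2 + h3 + (x1 * (y1 * y2 + y1 * y3 + y2 * y3) +
      x2 * (y1 * y2 + y1 * y3 + y2 * y3) + x2 * y1 ^ 2 + x2 * y2 ^ 2 + x2 * y3 ^ 2) * t
  rcases mul_eq_zero.mp h with h0 | h0
  · exact hx (eq_of_add h0)
  · have h4 : y1 + y2 + y3 = 0 := pow_eq_zero_iff (two_ne_zero) |>.mp h0
    have h5 : y1 + y2 = y3 := eq_of_add h4
    exact s3 (h5 ▸ hidx y1 y2 s1 s2)

lemma no_hexZ (hidx : ∀ a b : K, ¬ InS a → ¬ InS b → InS (a + b)) {mu : K}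
    {x1 x2 x3 y1 y2 y3 : K}
    (n1 : y1 ≠ 0) (n2 : y2 ≠ 0) (n3 : y3 ≠ 0)
    (s1 : ¬ InS (mu * y1⁻¹)) (s2 : ¬ InS (mu * y2⁻¹)) (s3 : ¬ InS (mu * y3⁻¹))
    (hz : web x1 y1 ≠ web x1 y2)
    (h1 : web x1 y1 = web x2 y2) (h2 : web x2 y2 = web x3 y3)
    (h3 : web x1 y2 = web x2 y3) (h4 : web x2 y3 = web x3 y1) :
    False := by
  have t : (2 : K) = 0 := two0
  obtain ⟨z1, hz1⟩ : ∃ z, z = web x1 y1 := ⟨_, rfl⟩
  obtain ⟨z2, hz2⟩ : ∃ z, z = web x1 y2 := ⟨_, rfl⟩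
  have e1 : z1 = x1 * y1 ^ 2 + y1 := hz1
  have e2 : z1 = x2 * y2 ^ 2 + y2 := hz1.trans h1
  have e3 : z1 = x3 * y3 ^ 2 + y3 := hz1.trans (h1.trans h2)
  have f1 : z2 = x1 * y2 ^ 2 + y2 := hz2
  have f2 : z2 = x2 * y3 ^ 2 + y3 := hz2.trans h3
  have f3 : z2 = x3 * y1 ^ 2 + y1 := hz2.trans (h3.trans h4)
  set a := y1⁻¹ with ha
  set b := y2⁻¹ with hb
  set c := y3⁻¹ with hc
  have ia : a * y1 = 1 := inv_mul_cancel₀ n1
  have ib : b * y2 = 1 := inv_mul_cancel₀ n2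
  have ic : c * y3 = 1 := inv_mul_cancel₀ n3
  -- x = z a^2 + a
  have key : ∀ z x y i : K, i * y = 1 → z = x * y ^ 2 + y → x = z * i ^ 2 + i := by
    intro z x y i hi hzz
    have : z * i ^ 2 = x + i := by
      rw [hzz]
      linear_combination (x * (i * y + 1) + i) * hi
    linear_combination (-1 : K) * this - i * t
  have g1 := key _ _ _ _ ia e1
  have g2 := key _ _ _ _ ib e2
  have g3 := key _ _ _ _ ic e3
  have k1 := key _ _ _ _ ib f1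
  have k2 := key _ _ _ _ ic f2
  have k3 := key _ _ _ _ ia f3
  have h : (z1 + z2) * (a + b + c) ^ 2 = 0 := by
    have m1 : z1 * a ^ 2 + a = z2 * b ^ 2 + b := g1.symm.trans k1
    have m2 : z1 * b ^ 2 + b = z2 * c ^ 2 + c := g2.symm.trans k2
    have m3 : z1 * c ^ 2 + c = z2 * a ^ 2 + a := g3.symm.trans k3
    linear_combination m1 + m2 + m3 + (z1 * (a * b + a * c + b * c) +
      z2 * (a * b + a * c + b * c) + z2 * a ^ 2 + z2 * b ^ 2 + z2 * c ^ 2) * t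
  rcases mul_eq_zero.mp h with h0 | h0
  · apply hz
    rw [← hz1, ← hz2]
    exact eq_of_add h0
  · have h4 : a + b + c = 0 := pow_eq_zero_iff (two_ne_zero) |>.mp h0
    have h5 : mu * a + mu * b = mu * c := by
      have : a + b = c := eq_of_add h4
      rw [← this]; ring
    exact s3 (h5 ▸ hidx _ _ s1 s2)

lemma no_hexY (h3 : ∀ u : K, u ^ 2 + u + 1 ≠ 0) {x1 x2 x3 y1 y2 : K}
    (n2 : y2 ≠ 0) (hx : x2 ≠ x3)
    (h1 : web x1 y1 = web x2 y2) (h2 : web x2 y1 = web x3 y2) (h4 : web x3 y1 = web x1 y2) :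
    False := by
  have t : (2 : K) = 0 := two0
  unfold web at h1 h2 h4
  -- differences
  have e1 : y1 ^ 2 * (x1 + x2) = y2 ^ 2 * (x2 + x3) := by
    linear_combination h1 - h2 + (x2 * y1 ^ 2 - x3 * y2 ^ 2) * t
  have e2 : y1 ^ 2 * (x2 + x3) = y2 ^ 2 * (x3 + x1) := by
    linear_combination h2 - h4 + (x3 * y1 ^ 2 - x1 * y2 ^ 2) * t
  have hb : x2 + x3 ≠ 0 := fun h => hx (eq_of_add h)
  have e3 : (x2 + x3) * (y1 ^ 4 + y1 ^ 2 * y2 ^ 2 + y2 ^ 4) = 0 := by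
    linear_combination y1 ^ 2 * e2 + y2 ^ 2 * e1 +
      (x2 * y2 ^ 4 + x3 * y1 ^ 2 * y2 ^ 2 + x3 * y2 ^ 4) * t
  rcases mul_eq_zero.mp e3 with h0 | h0
  · exact hb h0
  · apply h3 ((y1 / y2) ^ 2)
    have h5 : ((y1 / y2) ^ 2) ^ 2 + (y1 / y2) ^ 2 + 1 =
        (y1 ^ 4 + y1 ^ 2 * y2 ^ 2 + y2 ^ 4) / y2 ^ 4 := by
      field_simp
    rw [h5, h0, zero_div]

lemma no_grid {x1 x2 x3 y1 y2 y3 : K} (d12 : y1 ≠ y2) (d23 : y2 ≠ y3) (d13 : y1 ≠ y3)
    (h1 : web x1 y1 = web x2 y3) (h2 : web x2 y2 = web x3 y1) (h3 : web x1 y2 = web x3 y3) :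
    False := by
  have t : (2 : K) = 0 := two0
  unfold web at h1 h2 h3
  have h : (y1 + y2) * (y2 + y3) * (y1 + y3) = 0 := by
    linear_combination y2 ^ 2 * h1 + y3 ^ 2 * h2 + y1 ^ 2 * h3 +
      (x3 * y1 ^ 2 * y3 ^ 2 - x1 * y1 ^ 2 * y2 ^ 2 + y1 * y2 * y3 + y1 * y3 ^ 2 +
        y1 ^ 2 * y3 + y2 ^ 2 * y3) * t
  rcases mul_eq_zero.mp h with h0 | h0
  · rcases mul_eq_zero.mp h0 with h0 | h0
    · exact d12 (eq_of_add h0)
    · exact d23 (eq_of_add h0)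
  · exact d13 (eq_of_add h0)

lemma no_prism (hone : ¬ InS (1 : K)) {x1 x2 x3 y1 y2 y3 : K} (d12 : y1 ≠ y2)
    (s1 : InS (x1 * y1)) (s2 : InS (x1 * y2))
    (h1 : web x1 y1 = web x2 y3) (h2 : web x1 y2 = web x3 y3) (h3 : web x2 y1 = web x3 y2) :
    False := by
  have t : (2 : K) = 0 := two0
  unfold web at h1 h2 h3
  have hD : y1 + y2 ≠ 0 := fun h => d12 (eq_of_add h)
  have e : (y1 + y2) * ((y1 + y2) ^ 3 * x1 +
      ((y1 + y3) ^ 2 + (y1 + y3) * (y1 + y2) + (y1 + y2) ^ 2)) = 0 := by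
    linear_combination y1 ^ 2 * h1 + y2 ^ 2 * h2 + y3 ^ 2 * h3 +
      (2 * x1 * y1 * y2 ^ 3 + 3 * x1 * y1 ^ 2 * y2 ^ 2 + 2 * x1 * y1 ^ 3 * y2 +
        x3 * y2 ^ 2 * y3 ^ 2 + 2 * y1 * y2 * y3 + 2 * y1 * y2 ^ 2 + 3 * y1 ^ 2 * y2 +
        2 * y1 ^ 2 * y3 + y1 ^ 3 + y2 * y3 ^ 2 + y2 ^ 2 * y3) * t
  have e' : (y1 + y2) ^ 3 * x1 =
      (y1 + y3) ^ 2 + (y1 + y3) * (y1 + y2) + (y1 + y2) ^ 2 := by
    rcases mul_eq_zero.mp e with h0 | h0
    · exact absurd h0 hD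
    · exact eq_of_add h0
  apply hone
  have e2 : x1 * y1 + x1 * y2 =
      ((y1 + y3) / (y1 + y2)) ^ 2 + ((y1 + y3) / (y1 + y2)) + 1 := by
    field_simp
    linear_combination e'
  have hS : InS (x1 * y1 + x1 * y2) := s1.add s2
  have hS2 : InS (((y1 + y3) / (y1 + y2)) ^ 2 + ((y1 + y3) / (y1 + y2))) := ⟨_, rfl⟩
  have : x1 * y1 + x1 * y2 + (((y1 + y3) / (y1 + y2)) ^ 2 + ((y1 + y3) / (y1 + y2))) = 1 := by
    rw [e2]
    linear_combination (((y1 + y3) / (y1 + y2)) ^ 2 + ((y1 + y3) / (y1 + y2))) * t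
  rw [← this]
  exact hS.add hS2

end Pool.Agent.MP_f6f4b2_co_Neg
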